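import Pool.Agent.Lib.MP_1ef125_al.Gen.Twist
import Pool.Agent.Lib.MP_1ef125_al.Gen.Hull

universe u

namespace Pool.Agent.Results.MP_1ef125_al.YamagataAllFields

/-- A minimal injective coresolution `0 → B → I 0 → I 1 → ⋯` of the left regular module by
finitely generated left modules: the sequence is exact, every term is injective, and every term
`I i` is an essential extension of the kernel of `d i`. -/
structure MinInjCores (B : Type u) [Ring B] where
  I : ℕ → ModuleCat.{u} B
  ε : B →ₗ[B] I 0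
  d : ∀ i, I i →ₗ[B] I (i + 1)
  finite : ∀ i, Module.Finite B (I i)
  injective : ∀ i, Module.Injective B (I i)
  ε_injective : Function.Injective ε
  exact_zero : Function.Exact ε (d 0)
  exact_succ : ∀ i, Function.Exact (d i) (d (i + 1))
  essential : ∀ i (L : Submodule B (I i)), L ⊓ LinearMap.ker (d i) = ⊥ → L = ⊥

/-- The dominant dimension: the supremum of all `m` such that `I 0, …, I (m - 1)` are
projective. -/
noncomputable def MinInjCores.domdim {B : Type u} [Ring B] (R : MinInjCores B) : ℕ∞ :=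
  sSup {x : ℕ∞ | ∃ m : ℕ, x = m ∧ ∀ j < m, Module.Projective B (R.I j)}

open Pool.Agent.Lib.MP_1ef125_al.Gen in
theorem of_chain {k A : Type u} [Field k] [Ring A] [Algebra k A] [FiniteDimensional k A] {r : ℕ}
    (C : Chain k A r) (hr : 0 < r) :
    ∃ (B : Type u) (_ : Ring B) (_ : Algebra k B), FiniteDimensional k B ∧
      (∃ S : Fin 2 → ModuleCat.{u} B, (∀ i, IsSimpleModule B (S i)) ∧
        (∀ i j, Nonempty (S i ≃ₗ[B] S j) → i = j) ∧
        ∀ M : ModuleCat.{u} B, IsSimpleModule B M → ∃ i, Nonempty (M ≃ₗ[B] S i)) ∧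
      Nonempty (MinInjCores B) ∧ ∀ R : MinInjCores B, R.domdim = (r + 1 : ℕ) := by
  refine ⟨C.BB, inferInstance, inferInstance, inferInstance, C.main hr, ?_, fun R => ?_⟩
  · obtain ⟨I, ε, d, h1, h2, h3, h4, h5, h6⟩ := exists_min (B := C.BB) k
    exact ⟨⟨I, ε, d, h1, h2, h3, h4, h5, h6⟩⟩
  refine le_antisymm (sSup_le ?_) (le_sSup ⟨r + 1, rfl, (C.pp _ le_rfl).projective R.I R.ε R.d
    R.injective R.ε_injective R.exact_zero R.exact_succ R.essential⟩)
  rintro _ ⟨m, rfl, hm⟩
  refine Nat.cast_le.mpr (not_lt.mp fun h => C.not_pp hr ?_)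
  exact ⟨R.I, R.ε, R.d, R.ε_injective, fun _ => R.exact_zero, fun i _ => R.exact_succ i,
    fun j hj => ⟨hm j (by omega), R.injective j⟩⟩

/-- Over every field and for every `r` there is a finite-dimensional algebra with exactly two
isomorphism classes of simple modules and dominant dimension exactly `2 r + 2`. -/
theorem result (k : Type u) [Field k] (r : ℕ) :
    ∃ (B : Type u) (_ : Ring B) (_ : Algebra k B), FiniteDimensional k B ∧
      (∃ S : Fin 2 → ModuleCat.{u} B, (∀ i, IsSimpleModule B (S i)) ∧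
        (∀ i j, Nonempty (S i ≃ₗ[B] S j) → i = j) ∧
        ∀ M : ModuleCat.{u} B, IsSimpleModule B M → ∃ i, Nonempty (M ≃ₗ[B] S i)) ∧
      Nonempty (MinInjCores B) ∧ ∀ R : MinInjCores B, R.domdim = (2 * r + 2 : ℕ) :=
  of_chain (Pool.Agent.Lib.MP_1ef125_al.Gen.chain ⟨k, ‹Field k›, r⟩) (Nat.succ_pos _)

end Pool.Agent.Results.MP_1ef125_al.YamagataAllFields
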